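import Pool.Agent.H92.EQ.TT

/-!
# Row TB of eqd_modules: pull-backs
-/

set_option autoImplicit false
set_option linter.unusedSectionVars false

namespace Pool.Agent.H39.EQ.TB

open scoped BigOperators ComplexConjugate ContDiff ComplexOrder
open MeasureTheory Pool.Agent.H92.EQ

section

variable {ι κ : Type} [Fintype ι] [DecidableEq ι] [Fintype κ] [DecidableEq κ] {p : ℕ}

theorem kill_gen {V : ι → ℂ} {f : (Fin p → ι) → ℂ}
    (hf : ∀ I (j : Fin p), ∑ a, V a * f (Function.update I j a) = 0)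
    (w : Fin p → ι → ℂ) (l : Fin p) (t : ℂ) (hw : w l = fun a => t * V a) :
    ∑ I' : Fin p → ι, f I' * ∏ l', w l' (I' l') = 0 := by
  classical
  rw [← Equiv.sum_comp (Equiv.funSplitAt l ι).symm, Fintype.sum_prod_type, Finset.sum_comm]
  refine Finset.sum_eq_zero fun g _ => ?_
  by_cases hne : Nonempty ι
  swap
  · have : IsEmpty ι := not_nonempty_iff.mp hne
    simp
  obtain ⟨a0⟩ := hne
  set I0 : Fin p → ι := (Equiv.funSplitAt l ι).symm (a0, g) with hI0
  have h1 : ∀ a, (Equiv.funSplitAt l ι).symm (a, g) = Function.update I0 l a := by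
    intro a
    ext l'
    by_cases h : l' = l
    · subst h; simp [Equiv.funSplitAt, Equiv.piSplitAt]
    · simp [Equiv.funSplitAt, Equiv.piSplitAt, hI0, h]
  have h2 : ∀ a, f ((Equiv.funSplitAt l ι).symm (a, g)) *
      ∏ l', w l' ((Equiv.funSplitAt l ι).symm (a, g) l') =
      (V a * f (Function.update I0 l a)) * (t * ∏ l' ∈ Finset.univ.erase l, w l' (I0 l')) := by
    intro a
    rw [h1, ← Finset.mul_prod_erase Finset.univ _ (Finset.mem_univ l)]
    have h3 : ∏ l' ∈ Finset.univ.erase l, w l' (Function.update I0 l a l')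
        = ∏ l' ∈ Finset.univ.erase l, w l' (I0 l') := by
      refine Finset.prod_congr rfl fun l' hl' => ?_
      rw [Function.update_of_ne (Finset.ne_of_mem_erase hl')]
    rw [h3, Function.update_self, hw]
    ring
  simp only [h2]
  rw [← Finset.sum_mul, hf I0 l, zero_mul]

/-- the sum over the slot `j` of a product -/
theorem sum_slot (v : κ → ℂ) (J0 : ι → κ → ℂ) (y : ι → ℂ) (D : ℂ)
    (hE : ∀ i, ∑ a, v a * J0 i a = D * y i) (I : Fin p → κ) (j : Fin p) (I' : Fin p → ι) :
    ∑ a, v a * ∏ l, J0 (I' l) (Function.update I j a l) =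
      ∏ l, (if l = j then fun i => D * y i else fun i => J0 i (I l)) (I' l) := by
  have h1 : ∀ a, v a * ∏ l, J0 (I' l) (Function.update I j a l) =
      (v a * J0 (I' j) a) * ∏ l ∈ Finset.univ.erase j, J0 (I' l) (I l) := by
    intro a
    rw [← Finset.mul_prod_erase Finset.univ _ (Finset.mem_univ j), Function.update_self, mul_assoc]
    congr 2
    refine Finset.prod_congr rfl fun l' hl' => ?_
    rw [Function.update_of_ne (Finset.ne_of_mem_erase hl')]
  simp only [h1]
  rw [← Finset.sum_mul, hE, ← Finset.mul_prod_erase Finset.univ _ (Finset.mem_univ j)]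
  simp only [if_true]
  congr 1
  refine Finset.prod_congr rfl fun l' hl' => ?_
  rw [if_neg (Finset.ne_of_mem_erase hl')]

theorem pull_kilL (G : ι → MvPolynomial κ ℂ) (S : Form ι p) (z : κ → ℂ) (v : κ → ℂ) (y : ι → ℂ)
    (D : ℂ) (hE : ∀ i, ∑ a, v a * jac G z i a = D * y i) (hS : KilL y (S (ev G z))) :
    KilL v (pull G S z) := by
  intro I J j
  unfold pull
  have h1 : ∀ a, v a * ∑ I' : Fin p → ι, ∑ J' : Fin p → ι,
      S (ev G z) I' J' * (∏ l, jac G z (I' l) (Function.update I j a l)) *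
        ∏ l, conj (jac G z (J' l) (J l)) = ∑ J' : Fin p → ι, ∑ I' : Fin p → ι,
      (∏ l, conj (jac G z (J' l) (J l))) * (S (ev G z) I' J' *
        (v a * ∏ l, jac G z (I' l) (Function.update I j a l))) := by
    intro a
    rw [Finset.sum_comm, Finset.mul_sum]
    refine Finset.sum_congr rfl fun J' _ => ?_
    rw [Finset.mul_sum]
    refine Finset.sum_congr rfl fun I' _ => ?_
    ring
  simp only [h1]
  rw [Finset.sum_comm]
  refine Finset.sum_eq_zero fun J' _ => ?_
  rw [Finset.sum_comm]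
  simp only [← Finset.mul_sum]
  have h2 := kill_gen (V := y) (f := fun I' => S (ev G z) I' J') (fun I0 j0 => hS I0 J' j0)
    (fun l => if l = j then fun i => D * y i else fun i => jac G z i (I l)) j D (by simp)
  have h3 : ∀ I' : Fin p → ι, ∑ a, v a * ∏ l, jac G z (I' l) (Function.update I j a l)
      = ∏ l, (if l = j then fun i => D * y i else fun i => jac G z i (I l)) (I' l) :=
    fun I' => sum_slot v (jac G z) y D hE I j I'
  simp only [h3]
  rw [h2, mul_zero]

theorem pull_kilR (G : ι → MvPolynomial κ ℂ) (S : Form ι p) (z : κ → ℂ) (v : κ → ℂ) (y : ι → ℂ)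
    (D : ℂ) (hE : ∀ i, ∑ a, v a * jac G z i a = D * y i) (hS : KilR y (S (ev G z))) :
    KilR v (pull G S z) := by
  intro I J j
  unfold pull
  have h1 : ∀ a, conj (v a) * ∑ I' : Fin p → ι, ∑ J' : Fin p → ι,
      S (ev G z) I' J' * (∏ l, jac G z (I' l) (I l)) *
        ∏ l, conj (jac G z (J' l) (Function.update J j a l)) =
      ∑ I' : Fin p → ι, ∑ J' : Fin p → ι,
      (∏ l, jac G z (I' l) (I l)) * (S (ev G z) I' J' *
        (conj (v a) * ∏ l, conj (jac G z (J' l) (Function.update J j a l)))) := by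
    intro a
    rw [Finset.mul_sum]
    refine Finset.sum_congr rfl fun I' _ => ?_
    rw [Finset.mul_sum]
    refine Finset.sum_congr rfl fun J' _ => ?_
    ring
  simp only [h1]
  rw [Finset.sum_comm]
  refine Finset.sum_eq_zero fun I' _ => ?_
  rw [Finset.sum_comm]
  simp only [← Finset.mul_sum]
  have hE' : ∀ i, ∑ a, conj (v a) * conj (jac G z i a) = conj D * conj (y i) := by
    intro i
    rw [← map_mul, ← hE i, map_sum]
    refine Finset.sum_congr rfl fun a _ => ?_
    rw [map_mul]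
  have h2 := kill_gen (V := fun i => conj (y i)) (f := fun J' => S (ev G z) I' J')
    (fun I0 j0 => hS I' I0 j0)
    (fun l => if l = j then fun i => conj D * conj (y i) else fun i => conj (jac G z i (J l)))
    j (conj D) (by simp)
  have h3 : ∀ J' : Fin p → ι, ∑ a, conj (v a) * ∏ l, conj (jac G z (J' l) (Function.update J j a l))
      = ∏ l, (if l = j then fun i => conj D * conj (y i) else fun i => conj (jac G z i (J l)))
        (J' l) :=
    fun J' => sum_slot (fun a => conj (v a)) (fun i a => conj (jac G z i a)) (fun i => conj (y i))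
      (conj D) hE' J j J'
  simp only [h3]
  rw [h2, mul_zero]

theorem wd_smul (c : ℂ) (a : ι) (g : (ι → ℂ) → ℂ) (z : ι → ℂ) :
    wd a (fun w => c * g w) z = c * wd a g z := by
  have h1 : fderiv ℝ (fun w => c * g w) z = c • fderiv ℝ g z := by
    have := congrFun (fderiv_const_smul_field (𝕜 := ℝ) (f := g) c) z
    exact this
  unfold wd
  rw [h1]
  simp only [smul_apply, smul_eq_mul]
  ring

theorem wdb_smul (c : ℂ) (a : ι) (g : (ι → ℂ) → ℂ) (z : ι → ℂ) :
    wdb a (fun w => c * g w) z = c * wdb a g z := by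
  have h1 : fderiv ℝ (fun w => c * g w) z = c • fderiv ℝ g z := by
    have := congrFun (fderiv_const_smul_field (𝕜 := ℝ) (f := g) c) z
    exact this
  unfold wdb
  rw [h1]
  simp only [smul_apply, smul_eq_mul]
  ring

theorem hessR_smul (c : ℝ) (φ : (ι → ℂ) → ℝ) (z : ι → ℂ) :
    hessR (fun w => c * φ w) z = (c : ℂ) • hessR φ z := by
  ext a b
  have h1 : (fun w => wdb b (fun w' => ((c * φ w' : ℝ) : ℂ)) w)
      = fun w => (c : ℂ) * wdb b (fun w' => (φ w' : ℂ)) w := by
    funext w
    rw [← wdb_smul]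
    congr 1
    funext w'
    push_cast; rfl
  unfold hessR hess
  rw [h1, wd_smul]
  rfl

theorem nsq_smul (c : ℂ) (y : ι → ℂ) : nsq (c • y) = ‖c‖ ^ 2 * nsq y := by
  unfold nsq
  rw [Finset.mul_sum]
  refine Finset.sum_congr rfl fun i _ => ?_
  rw [Pi.smul_apply, smul_eq_mul, norm_mul, mul_pow]

theorem nsq_pos {y : ι → ℂ} (hy : y ≠ 0) : 0 < nsq y := by
  obtain ⟨i, hi⟩ : ∃ i, y i ≠ 0 := by
    by_contra hcon
    push Not at hcon
    exact hy (funext hcon)
  unfold nsq
  refine Finset.sum_pos' (fun i _ => by positivity) ⟨i, Finset.mem_univ _, ?_⟩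
  have : 0 < ‖y i‖ := norm_pos_iff.mpr hi
  positivity

theorem ell_smul (c : ℂ) (hc : c ≠ 0) {y : ι → ℂ} (hy : y ≠ 0) :
    ell (c • y) = ell y + Real.log ‖c‖ := by
  unfold ell
  have h1 : 0 < ‖c‖ := norm_pos_iff.mpr hc
  rw [nsq_smul, Real.log_mul (by positivity) (nsq_pos hy).ne', Real.log_pow]
  push_cast; ring

end

variable {N p D : ℕ}

theorem ev_contDiff (h2 : T_W2) {ι κ : Type} [Fintype ι] [DecidableEq ι] [Fintype κ]
    [DecidableEq κ] [Nonempty κ] (G : ι → MvPolynomial κ ℂ) : ContDiff ℝ ∞ (ev G) := by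
  rw [contDiff_pi]
  intro i
  obtain ⟨a0⟩ := ‹Nonempty κ›
  exact (h2 κ a0 (G i) 0).2.2

theorem jac_hom (h2 : T_W2) (h3 : T_W3) (G : Fin N → MvPolynomial (Fin (N + 1)) ℂ)
    (hG : ∀ (l : ℂ) (z : Fin (N + 1) → ℂ), ev G (ct (z 0) (l • tl z)) = l ^ D • ev G z)
    (l : ℂ) (z : Fin (N + 1) → ℂ) (i : Fin N) (a : Fin (N + 1)) :
    (if a = 0 then 1 else l) * jac G (ct (z 0) (l • tl z)) i a = l ^ D * jac G z i a := by
  classical
  let m : Fin (N + 1) → ℂ := fun b => if b = 0 then 1 else l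
  let M : Fin (N + 1) → MvPolynomial (Fin (N + 1)) ℂ := fun b =>
    MvPolynomial.C (m b) * MvPolynomial.X b
  have hM : ∀ w, ev M w = ct (w 0) (l • tl w) := by
    intro w
    funext b
    refine Fin.cases ?_ (fun b => ?_) b
    · simp [ev, M, m, ct]
    · simp [ev, M, m, ct, tl]
  have hf : Differentiable ℝ (fun w => MvPolynomial.eval w (G i)) :=
    (h2 _ a (G i) 0).2.2.differentiable (by simp)
  have e1 := (h3 (Fin (N + 1)) (Fin (N + 1)) M (fun w => MvPolynomial.eval w (G i)) z a
    (hf _)).1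
  have e2 : (fun w => (fun w => MvPolynomial.eval w (G i)) (ev M w))
      = fun w => MvPolynomial.eval w (MvPolynomial.C (l ^ D) * G i) := by
    funext w
    simp only [map_mul, MvPolynomial.eval_C]
    rw [hM]
    have := congrFun (hG l w) i
    simpa [ev] using this
  rw [e2, (h2 _ a _ z).1, MvPolynomial.pderiv_C_mul] at e1
  have e3 : ∀ b, jac M z b a * wd b (fun w => MvPolynomial.eval w (G i)) (ev M z)
      = if b = a then m a * jac G (ev M z) i a else 0 := by
    intro b
    rw [(h2 _ b (G i) (ev M z)).1]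
    simp only [jac, M, MvPolynomial.pderiv_C_mul, map_mul, MvPolynomial.eval_C,
      MvPolynomial.pderiv_X]
    by_cases hab : b = a
    · subst hab; simp
    · rw [if_neg hab]
      simp [hab]
  rw [Finset.sum_congr rfl (fun b _ => e3 b), Finset.sum_ite_eq' Finset.univ a] at e1
  simp only [Finset.mem_univ, if_true, map_mul, MvPolynomial.eval_C] at e1
  rw [hM] at e1
  exact e1.symm

theorem jac_euler (h0 : T_W0) (h2 : T_W2) (G : Fin N → MvPolynomial (Fin (N + 1)) ℂ)
    (hG : ∀ (l : ℂ) (z : Fin (N + 1) → ℂ), ev G (ct (z 0) (l • tl z)) = l ^ D • ev G z)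
    (z : Fin (N + 1) → ℂ) (i : Fin N) :
    ∑ a, ct 0 (tl z) a * jac G z i a = (D : ℂ) * ev G z i := by
  classical
  set f : (Fin (N + 1) → ℂ) → ℂ := fun w => MvPolynomial.eval w (G i) with hf0
  have hf : Differentiable ℝ f := (h2 _ 0 (G i) 0).2.2.differentiable (by simp)
  set v : Fin (N + 1) → ℂ := ct 0 (tl z) with hv
  have e1 : fderiv ℝ f z v = ∑ a, v a * jac G z i a := by
    rw [h0]
    refine Finset.sum_congr rfl fun a _ => ?_
    rw [(h2 _ a (G i) z).1, (h2 _ a (G i) z).2.1]
    simp only [jac]; ring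
  have e2 : HasDerivAt (fun t : ℝ => f (z + t • v)) (fderiv ℝ f z v) 0 := by
    have h4 : HasDerivAt (fun t : ℝ => z + t • v) v 0 := by
      have := ((hasDerivAt_id (0 : ℝ)).smul_const v).const_add z
      simpa using this
    have h5 : HasFDerivAt f (fderiv ℝ f z) (z + (0 : ℝ) • v) := by
      rw [zero_smul, add_zero]; exact (hf z).hasFDerivAt
    exact h5.comp_hasDerivAt (0 : ℝ) h4
  have e3 : ∀ t : ℝ, f (z + t • v) = (1 + (t : ℂ)) ^ D * f z := by
    intro t
    have h6 : z + t • v = ct (z 0) ((1 + (t : ℂ)) • tl z) := by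
      funext b
      refine Fin.cases ?_ (fun b => ?_) b
      · simp [hv, ct]
      · simp only [hv, ct, tl, Pi.add_apply, Pi.smul_apply, Fin.cons_succ, smul_eq_mul,
          Complex.real_smul]
        ring
    rw [h6]
    have := congrFun (hG (1 + (t : ℂ)) z) i
    simpa [ev, hf0] using this
  have e4 : HasDerivAt (fun t : ℝ => f (z + t • v)) ((D : ℂ) * f z) 0 := by
    have h7 : (fun t : ℝ => f (z + t • v)) = fun t : ℝ => (1 + (t : ℂ)) ^ D * f z := funext e3
    rw [h7]
    have h8 : HasDerivAt (fun t : ℝ => (1 + (t : ℂ))) 1 0 := by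
      have := (Complex.ofRealCLM.hasDerivAt (x := (0 : ℝ))).const_add (1 : ℂ)
      simpa using this
    have h9 := (h8.pow D).mul_const (f z)
    simpa using h9
  rw [← e1]
  exact e2.unique e4

theorem pf_TB (h0 : T_W0) (h2 : T_W2) (h3 : T_W3) (h4 : T_W4) (h9 : T_W9) (hD1 : T_D1)
    (hD2 : T_D2) : T_TB := by
  intro N p D V G S hV hD hG hne hS
  classical
  have hjh := jac_hom h2 h3 G hG
  have hje := jac_euler h0 h2 G hG
  have hCF : ClosedForm ({0}ᶜ : Set (Fin N → ℂ)) S :=
    ⟨hS.cp.smooth, hS.cp.altL, hS.cp.altR, hS.cp.closedL, hS.cp.closedR⟩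
  have hsub : WV N V ⊆ ev G ⁻¹' {0}ᶜ := fun z hz => hne z hz
  have hCF' := hD1 _ _ p G _ S isOpen_compl_singleton hCF
  have hev : ContDiff ℝ ∞ (ev G) := ev_contDiff h2 G
  have hDc : (0 : ℝ) < D := by exact_mod_cast hD
  refine ⟨⟨⟨fun I J => (hCF'.smooth I J).mono hsub, fun z hz => hCF'.altL z (hsub hz),
    fun z hz => hCF'.altR z (hsub hz), fun z hz => hCF'.closedL z (hsub hz),
    fun z hz => hCF'.closedR z (hsub hz)⟩, ?_, ?_, ?_, ?_⟩, ⟨?_, ?_⟩, ?_⟩
  · intro z hz
    exact hD2 _ _ p G S z (hS.cp.psd _ (hne z hz))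
  · intro z hz
    exact pull_kilL G S z _ (ev G z) D (hje z) (hS.basicL _ (hne z hz))
  · intro z hz
    exact pull_kilR G S z _ (ev G z) D (hje z) (hS.basicR _ (hne z hz))
  · intro l z hl hz I J
    have hlD : l ^ D ≠ 0 := pow_ne_zero _ hl
    have hz' : ev G z ≠ 0 := hne z hz
    have hja : ∀ i a, jac G (ct (z 0) (l • tl z)) i a
        = l ^ D * (if a = 0 then 1 else l⁻¹) * jac G z i a := by
      intro i a
      have := hjh l z i a
      by_cases ha : a = 0
      · simp only [ha, if_true, one_mul] at this ⊢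
        rw [this]; ring
      · simp only [ha, if_false] at this ⊢
        have h5 : jac G (ct (z 0) (l • tl z)) i a = l⁻¹ * (l * jac G (ct (z 0) (l • tl z)) i a) := by
          field_simp
        rw [h5, this]; ring
    unfold pull
    rw [hG l z, Finset.mul_sum]
    refine Finset.sum_congr rfl fun I' _ => ?_
    rw [Finset.mul_sum]
    refine Finset.sum_congr rfl fun J' _ => ?_
    rw [hS.homog (l ^ D) (ev G z) hlD hz' I' J']
    simp only [hja, map_mul, Finset.prod_mul_distrib, Finset.prod_const, Finset.card_univ,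
      Fintype.card_fin]
    have hcj : ∀ a : Fin (N + 1), conj (if a = 0 then (1 : ℂ) else l⁻¹)
        = if a = 0 then 1 else (conj l)⁻¹ := by
      intro a
      split_ifs
      · simp
      · rw [map_inv₀]
    simp only [hcj]
    have hnn : (((‖l ^ D‖ ^ (2 * p))⁻¹ : ℝ) : ℂ) * ((l ^ D) ^ p * (conj (l ^ D)) ^ p) = 1 := by
      rw [← mul_pow, Complex.mul_conj, Complex.normSq_eq_norm_sq, ← Complex.ofReal_pow,
        ← Complex.ofReal_mul]
      have h6 : 0 < ‖l ^ D‖ := norm_pos_iff.mpr hlD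
      rw [← pow_mul, inv_mul_cancel₀ (by positivity)]
      simp
    linear_combination (S (ev G z) I' J' * (∏ x, if I x = 0 then 1 else l⁻¹) *
      (∏ x, jac G z (I' x) (I x)) * (∏ x, if J x = 0 then 1 else (conj l)⁻¹) *
      ∏ x, conj (jac G z (J' x) (J x))) * hnn
  · have h5 : ContDiffOn ℝ ∞ (fun z => ell (ev G z)) (WV N V) :=
      (h9 (Fin N)).1.comp hev.contDiffOn (fun z hz => hne z hz)
    exact contDiffOn_const.mul h5
  · intro l z hl hz
    have h5 : ev G z ≠ 0 := hne z hz
    show 1 / (D : ℝ) * ell (ev G (ct (z 0) (l • tl z))) = 1 / (D : ℝ) * ell (ev G z) +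
      1 * Real.log ‖l‖
    rw [hG, ell_smul _ (pow_ne_zero _ hl) h5, norm_pow, Real.log_pow]
    field_simp
  · intro z hz
    rw [hessR_smul]
    have h5 : ev G z ≠ 0 := hne z hz
    have hpsd := ((h9 (Fin N)).2 (ev G z) h5).2.2.2.1
    have hcd : ContDiffAt ℝ 2 (fun y : Fin N → ℂ => (ell y : ℂ)) (ev G z) := by
      have h6 : ContDiffAt ℝ ∞ (ell : (Fin N → ℂ) → ℝ) (ev G z) :=
        (h9 (Fin N)).1.contDiffAt (isOpen_compl_singleton.mem_nhds h5)
      have h7 : ContDiffAt ℝ 2 (ell : (Fin N → ℂ) → ℝ) (ev G z) := h6.of_le (WithTop.coe_le_coe.mpr (le_top : (2 : ℕ∞) ≤ ⊤))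
      exact Complex.ofRealCLM.contDiff.contDiffAt.comp _ h7
    have h8 : hessR (fun z => ell (ev G z)) z
        = ((jac G z).transpose * hessR ell (ev G z)) * ((jac G z).transpose).conjTranspose := by
      ext a b
      rw [Matrix.mul_apply]
      simp only [Matrix.mul_apply, Matrix.transpose_apply, Matrix.conjTranspose_apply]
      have h10 := h4 _ _ G (fun y : Fin N → ℂ => (ell y : ℂ)) z hcd a b
      unfold hessR
      rw [h10, Finset.sum_comm]
      refine Finset.sum_congr rfl fun j _ => ?_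
      rw [Finset.sum_mul]
      refine Finset.sum_congr rfl fun i _ => ?_
      have : star (jac G z j b) = conj (jac G z j b) := rfl
      rw [this]; ring
    rw [h8]
    refine Matrix.PosSemidef.smul (hpsd.mul_mul_conjTranspose_same _) ?_
    have : (0 : ℝ) ≤ 1 / (D : ℝ) := by positivity
    exact_mod_cast this

end Pool.Agent.H39.EQ.TB
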