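import Pool.Agent.H92.EQ.TF1

/-!
# Row A12 of eqd_modules: the contraction identity
-/

set_option autoImplicit false
set_option linter.unusedSectionVars false

namespace Pool.Agent.H39.EQ.A12

open scoped BigOperators ComplexConjugate
open Pool.Agent.H92.EQ

variable {ι : Type} [Fintype ι] [DecidableEq ι] {p m : ℕ}

theorem kill_term {V : ι → ℂ} {S : (Fin p → ι) → (Fin p → ι) → ℂ} (hS : KilL V S)
    (J : Fin p → ι) (w : Fin p → ι → ℂ) (l : Fin p) (t : ℂ) (hw : w l = fun a => t * V a) :
    ∑ I' : Fin p → ι, S I' J * ∏ l', w l' (I' l') = 0 := by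
  classical
  rw [← Equiv.sum_comp (Equiv.funSplitAt l ι).symm, Fintype.sum_prod_type, Finset.sum_comm]
  refine Finset.sum_eq_zero fun g _ => ?_
  by_cases hne : Nonempty ι
  swap
  · have : IsEmpty ι := not_nonempty_iff.mp hne
    simp
  obtain ⟨a0⟩ := hne
  set I0 : Fin p → ι := (Equiv.funSplitAt l ι).symm (a0, g) with hI0
  have h1 : ∀ a, (Equiv.funSplitAt l ι).symm (a, g) = Function.update I0 l a := by
    intro a
    ext l'
    by_cases h : l' = l
    · subst h; simp [Equiv.funSplitAt, Equiv.piSplitAt]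
    · simp [Equiv.funSplitAt, Equiv.piSplitAt, hI0, h]
  have h2 : ∀ a, S ((Equiv.funSplitAt l ι).symm (a, g)) J *
      ∏ l', w l' ((Equiv.funSplitAt l ι).symm (a, g) l') =
      (V a * S (Function.update I0 l a) J) * (t * ∏ l' ∈ Finset.univ.erase l, w l' (I0 l')) := by
    intro a
    rw [h1, ← Finset.mul_prod_erase Finset.univ _ (Finset.mem_univ l)]
    have h3 : ∏ l' ∈ Finset.univ.erase l, w l' (Function.update I0 l a l')
        = ∏ l' ∈ Finset.univ.erase l, w l' (I0 l') := by
      refine Finset.prod_congr rfl fun l' hl' => ?_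
      rw [Function.update_of_ne (Finset.ne_of_mem_erase hl')]
    rw [h3, Function.update_self, hw]
    ring
  simp only [h2]
  rw [← Finset.sum_mul, hS I0 J l, zero_mul]

/-- the multilinear form `∑ S I' J ∏ w_l (I' l)` -/
noncomputable def Phi (S : (Fin p → ι) → (Fin p → ι) → ℂ) (J : Fin p → ι) :
    MultilinearMap ℂ (fun _ : Fin p => ι → ℂ) ℂ :=
  ∑ I' : Fin p → ι, S I' J • (MultilinearMap.mkPiAlgebra ℂ (Fin p) ℂ).compLinearMap
    (fun l => LinearMap.proj (I' l))

theorem Phi_apply (S : (Fin p → ι) → (Fin p → ι) → ℂ) (J : Fin p → ι) (w : Fin p → ι → ℂ) :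
    Phi S J w = ∑ I' : Fin p → ι, S I' J * ∏ l, w l (I' l) := by
  unfold Phi
  simp

theorem S_unchanged {V τ : ι → ℂ} {S : (Fin p → ι) → (Fin p → ι) → ℂ} (hS : KilL V S)
    (I J : Fin p → ι) :
    ∑ I' : Fin p → ι, S I' J * ∏ l, ((1 : Matrix ι ι ℂ) (I' l) (I l) - V (I' l) * τ (I l))
      = S I J := by
  classical
  have h1 : ∑ I' : Fin p → ι, S I' J * ∏ l, ((1 : Matrix ι ι ℂ) (I' l) (I l) - V (I' l) * τ (I l))
      = Phi S J ((fun l a => (1 : Matrix ι ι ℂ) a (I l)) + (fun l a => (-τ (I l)) * V a)) := by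
    rw [Phi_apply]
    refine Finset.sum_congr rfl fun I' _ => ?_
    congr 1
    refine Finset.prod_congr rfl fun l _ => ?_
    simp only [Pi.add_apply]
    ring
  rw [h1, MultilinearMap.map_add_univ, Finset.sum_eq_single Finset.univ]
  · rw [Finset.piecewise_univ, Phi_apply, Finset.sum_eq_single I]
    · have : ∏ l, (1 : Matrix ι ι ℂ) (I l) (I l) = 1 := by
        refine Finset.prod_eq_one fun l _ => ?_
        rw [Matrix.one_apply_eq]
      rw [this, mul_one]
    · intro I' _ hI'
      obtain ⟨l, hl⟩ : ∃ l, I' l ≠ I l := by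
        by_contra hcon
        push Not at hcon
        exact hI' (funext hcon)
      have hp : ∏ l', (1 : Matrix ι ι ℂ) (I' l') (I l') = 0 :=
        Finset.prod_eq_zero (Finset.mem_univ l) (Matrix.one_apply_ne hl)
      rw [hp, mul_zero]
    · intro h; exact absurd (Finset.mem_univ _) h
  · intro s _ hs
    obtain ⟨l, hl⟩ : ∃ l, l ∉ s := by
      by_contra hcon
      push Not at hcon
      exact hs (Finset.eq_univ_iff_forall.mpr hcon)
    rw [Phi_apply]
    refine kill_term hS J _ l (-τ (I l)) ?_
    rw [Finset.piecewise_eq_of_notMem _ _ _ hl]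
  · intro h; exact absurd (Finset.mem_univ _) h

/-- `mixD` as a multilinear map -/
noncomputable def ml (h1 : T_A1) (S : (Fin p → ι) → (Fin p → ι) → ℂ) :
    MultilinearMap ℂ (fun _ : Fin m => Matrix ι ι ℂ) ℂ :=
  MultilinearMap.mk' (fun H => mixD S H)
    (fun H j A B => (h1 ι p m S S H j A B 0).1)
    (fun H j c A => (h1 ι p m S S H j A A c).2.1)

theorem ml_apply (h1 : T_A1) (S : (Fin p → ι) → (Fin p → ι) → ℂ) (H : Fin m → Matrix ι ι ℂ) :
    ml h1 S H = mixD S H := rfl

theorem out_neg_smul (τ y : ι → ℂ) (c : ℂ) : out τ (fun b => -(c * y b)) = (-c) • out τ y := by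
  ext a b
  simp only [out, Matrix.smul_apply, smul_eq_mul]
  ring

theorem pf_A12 (h1 : T_A1) (h6 : T_A6) (h10 : T_A10) : T_A12 := by
  intro ι _ _ p m S H V τ x y hS hτ
  classical
  set W : Fin (m + 1) → Matrix ι ι ℂ := Fin.cons (α := fun _ => Matrix ι ι ℂ) (out x y) H with hW
  let r : Fin (m + 1) → ι → ℂ := fun i b => -∑ a, V a * W i a b
  let A : Matrix ι ι ℂ := fun a b => (1 : Matrix ι ι ℂ) a b - V a * τ b
  have hV : V ≠ 0 := by
    rintro rfl
    simp at hτ
  have hdet : A.det = 0 := by
    rw [← Matrix.exists_mulVec_eq_zero_iff]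
    refine ⟨V, hV, ?_⟩
    ext a
    have e1 : A.mulVec V a = ∑ b, ((1 : Matrix ι ι ℂ) a b * V b - V a * (τ b * V b)) := by
      rw [Matrix.mulVec, dotProduct]
      refine Finset.sum_congr rfl fun b _ => ?_
      simp only [A]; ring
    rw [e1, Finset.sum_sub_distrib, ← Finset.mul_sum, hτ]
    have e2 : ∑ b, (1 : Matrix ι ι ℂ) a b * V b = V a := by
      rw [Finset.sum_eq_single a]
      · rw [Matrix.one_apply_eq, one_mul]
      · intro b _ hb
        rw [Matrix.one_apply_ne (Ne.symm hb), zero_mul]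
      · intro h; exact absurd (Finset.mem_univ _) h
    rw [e2]; simp
  -- the transformed data
  have h0 : mixD S (W + fun i => out τ (r i)) = 0 := by
    have h61 := h6 ι p (m + 1) S W A 1
    rw [hdet, zero_mul, zero_mul] at h61
    have hS1 : (fun I J => ∑ I' : Fin p → ι, ∑ J' : Fin p → ι,
        S I' J' * (∏ l, A (I' l) (I l)) * ∏ l, conj ((1 : Matrix ι ι ℂ) (J' l) (J l))) = S := by
      ext I J
      have e1 : ∀ I' : Fin p → ι, ∑ J' : Fin p → ι,
          S I' J' * (∏ l, A (I' l) (I l)) * ∏ l, conj ((1 : Matrix ι ι ℂ) (J' l) (J l))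
          = S I' J * ∏ l, A (I' l) (I l) := by
        intro I'
        rw [Finset.sum_eq_single J]
        · have : ∏ l, conj ((1 : Matrix ι ι ℂ) (J l) (J l)) = 1 := by
            refine Finset.prod_eq_one fun l _ => ?_
            rw [Matrix.one_apply_eq, map_one]
          rw [this, mul_one]
        · intro J' _ hJ'
          obtain ⟨l, hl⟩ : ∃ l, J' l ≠ J l := by
            by_contra hcon
            push Not at hcon
            exact hJ' (funext hcon)
          have hp : ∏ l', conj ((1 : Matrix ι ι ℂ) (J' l') (J l')) = 0 :=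
            Finset.prod_eq_zero (Finset.mem_univ l) (by rw [Matrix.one_apply_ne hl, map_zero])
          rw [hp, mul_zero]
        · intro h; exact absurd (Finset.mem_univ _) h
      simp only [e1]
      exact S_unchanged hS I J
    have hW1 : (fun j => fun a b => ∑ a', ∑ b', A a' a * conj ((1 : Matrix ι ι ℂ) b' b) *
        W j a' b' : Fin (m + 1) → Matrix ι ι ℂ) = W + fun i => out τ (r i) := by
      funext j a b
      have e1 : ∀ a', ∑ b', A a' a * conj ((1 : Matrix ι ι ℂ) b' b) * W j a' b'
          = A a' a * W j a' b := by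
        intro a'
        rw [Finset.sum_eq_single b]
        · rw [Matrix.one_apply_eq, map_one, mul_one]
        · intro b' _ hb'
          rw [Matrix.one_apply_ne hb', map_zero]; ring
        · intro h; exact absurd (Finset.mem_univ _) h
      have e3 : ∀ a', A a' a * W j a' b = (1 : Matrix ι ι ℂ) a' a * W j a' b
          - (V a' * τ a) * W j a' b := fun a' => by simp only [A]; ring
      rw [Finset.sum_congr rfl (fun a' _ => e1 a'), Finset.sum_congr rfl (fun a' _ => e3 a'),
        Finset.sum_sub_distrib]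
      have e2 : ∑ a', (1 : Matrix ι ι ℂ) a' a * W j a' b = W j a b := by
        rw [Finset.sum_eq_single a]
        · rw [Matrix.one_apply_eq, one_mul]
        · intro b' _ hb'
          rw [Matrix.one_apply_ne hb', zero_mul]
        · intro h; exact absurd (Finset.mem_univ _) h
      rw [e2]
      simp only [Pi.add_apply, Matrix.add_apply, out, r]
      rw [sub_eq_add_neg]
      congr 1
      rw [mul_neg, Finset.mul_sum]
      congr 1
      refine Finset.sum_congr rfl fun a' _ => ?_
      ring
    rw [hS1] at h61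
    rw [← hW1]
    exact h61
  -- expand
  rw [← ml_apply h1 S, MultilinearMap.map_add_eq_map_add_linearDeriv_add,
    MultilinearMap.linearDeriv_apply] at h0
  have hz : ∑ s : Finset (Fin (m + 1)) with 2 ≤ s.card,
      ml h1 S (s.piecewise (fun i => out τ (r i)) W) = 0 := by
    refine Finset.sum_eq_zero fun s hs => ?_
    rw [Finset.mem_filter] at hs
    obtain ⟨i, hi, i', hi', hne⟩ := Finset.one_lt_card.mp (by omega : 1 < s.card)
    rw [ml_apply]
    refine (h10 ι p (m + 1) S _ i i' τ (r i) (r i') hne).1 ?_ ?_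
    · rw [Finset.piecewise_eq_of_mem _ _ _ hi]
    · rw [Finset.piecewise_eq_of_mem _ _ _ hi']
  rw [hz, add_zero, Fin.sum_univ_succ] at h0
  simp only [ml_apply] at h0
  -- the zeroth term
  have hr0 : out τ (r 0) = (-(∑ a, x a * V a)) • out τ y := by
    rw [← out_neg_smul]
    congr 1
    funext b
    simp only [r, hW, Fin.cons_zero, out]
    rw [Finset.sum_mul]
    congr 1
    refine Finset.sum_congr rfl fun a _ => ?_
    ring
  have ht0 : mixD S (Function.update W 0 (out τ (r 0))) = -(∑ a, x a * V a) *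
      mixD S (Fin.cons (α := fun _ => Matrix ι ι ℂ) (out τ y) H) := by
    rw [hr0, (h1 ι p (m + 1) S S W 0 (out τ y) (out τ y) (-(∑ a, x a * V a))).2.1, hW,
      Fin.update_cons_zero]
  have hrs : ∀ j : Fin m, out τ (r j.succ) = (-1 : ℂ) • out τ (fun b => ∑ a, V a * H j a b) := by
    intro j
    rw [← out_neg_smul]
    congr 1
    funext b
    simp only [r, hW, Fin.cons_succ, one_mul]
  have hts : ∀ j : Fin m, mixD S (Function.update W j.succ (out τ (r j.succ))) =
      - mixD S (Fin.cons (α := fun _ => Matrix ι ι ℂ) (out x y)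
        (Function.update H j (out τ (fun b => ∑ a, V a * H j a b)))) := by
    intro j
    rw [hrs, (h1 ι p (m + 1) S S W j.succ (out τ (fun b => ∑ a, V a * H j a b))
      (out τ (fun b => ∑ a, V a * H j a b)) (-1)).2.1, hW, ← Fin.cons_update, neg_one_mul]
  rw [ht0] at h0
  simp only [hts] at h0
  rw [Finset.sum_neg_distrib] at h0
  linear_combination h0

end Pool.Agent.H39.EQ.A12
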