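import Pool.Agent.H39.EQ.A6

/-!
# Row A4 of eqd_modules: positivity of `mixD`
-/

set_option autoImplicit false
set_option linter.unusedSectionVars false

namespace Pool.Agent.H39.EQ

open scoped BigOperators ComplexConjugate ComplexOrder
open Pool.Agent.H92.EQ

open scoped MatrixOrder Matrix.Norms.L2Operator in
theorem psd_sqrt {ι : Type} [Fintype ι] [DecidableEq ι] {A : Matrix ι ι ℂ} (hA : A.PosSemidef) :
    ∃ B : Matrix ι ι ℂ, A = B.conjTranspose * B := by
  obtain ⟨B, hB⟩ := CStarAlgebra.nonneg_iff_eq_star_mul_self.mp hA.nonneg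
  exact ⟨B, hB⟩

theorem pf_A4 : T_A4 := by
  intro ι _ _ p m S H hS hH
  classical
  by_cases hne : Nonempty ((Fin p ⊕ Fin m) ≃ ι)
  swap
  · have : IsEmpty ((Fin p ⊕ Fin m) ≃ ι) := not_nonempty_iff.mp hne
    unfold mixD
    simp
  obtain ⟨e0⟩ := hne
  -- square roots
  have hdec : ∀ j, ∃ x : ι → ι → ℂ, ∀ a b, H j a b = ∑ k, x k a * conj (x k b) := by
    intro j
    obtain ⟨B, hB⟩ := psd_sqrt (hH j)
    refine ⟨fun k a => conj (B k a), fun a b => ?_⟩
    rw [hB, Matrix.mul_apply]
    refine Finset.sum_congr rfl fun k _ => ?_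
    rw [Matrix.conjTranspose_apply, Complex.conj_conj]
    rfl
  choose x hx using hdec
  -- the coefficients
  let u : (Fin m → ι) → ((Fin p ⊕ Fin m) ≃ ι) → ℂ := fun c e =>
    sgn e0 e * ∏ j, x j (c j) (e (Sum.inr j))
  have h1 : mixD S H = ∑ c : Fin m → ι, ∑ e : (Fin p ⊕ Fin m) ≃ ι,
      ∑ e' : (Fin p ⊕ Fin m) ≃ ι, u c e * conj (u c e') *
        S (fun i => e (Sum.inl i)) (fun i => e' (Sum.inl i)) := by
    rw [mixD_eq e0]
    have h2 : ∀ e e' : (Fin p ⊕ Fin m) ≃ ι, sgn e0 e * sgn e0 e' * G S H e e'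
        = ∑ c : Fin m → ι, u c e * conj (u c e') *
        S (fun i => e (Sum.inl i)) (fun i => e' (Sum.inl i)) := by
      intro e e'
      unfold G
      have h3 : ∏ j, H j (e (Sum.inr j)) (e' (Sum.inr j)) = ∑ c : Fin m → ι,
          ∏ j, (x j (c j) (e (Sum.inr j)) * conj (x j (c j) (e' (Sum.inr j)))) := by
        simp only [hx]
        rw [Finset.prod_univ_sum, Fintype.piFinset_univ]
      rw [h3, Finset.mul_sum, Finset.mul_sum]
      refine Finset.sum_congr rfl fun c _ => ?_
      simp only [u, map_mul, map_prod, sgn_conj, Finset.prod_mul_distrib]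
      ring
    simp only [h2]
    calc _ = ∑ e : (Fin p ⊕ Fin m) ≃ ι, ∑ c : Fin m → ι, ∑ e' : (Fin p ⊕ Fin m) ≃ ι,
          u c e * conj (u c e') *
          S (fun i => e (Sum.inl i)) (fun i => e' (Sum.inl i)) := by
            refine Finset.sum_congr rfl fun e _ => ?_
            rw [Finset.sum_comm]
      _ = _ := by rw [Finset.sum_comm]
  rw [h1]
  refine Finset.sum_nonneg fun c _ => ?_
  -- group by the first coordinates
  let v : (Fin p → ι) → ℂ := fun I =>
    ∑ e : (Fin p ⊕ Fin m) ≃ ι, if (fun i => e (Sum.inl i)) = I then u c e else 0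
  have h4 : ∑ e : (Fin p ⊕ Fin m) ≃ ι, ∑ e' : (Fin p ⊕ Fin m) ≃ ι, u c e * conj (u c e') *
        S (fun i => e (Sum.inl i)) (fun i => e' (Sum.inl i)) =
      ∑ I, ∑ J, v I * conj (v J) * S I J := by
    symm
    have h5 : ∀ I J, v I * conj (v J) * S I J = ∑ e : (Fin p ⊕ Fin m) ≃ ι,
        ∑ e' : (Fin p ⊕ Fin m) ≃ ι, (if (fun i => e (Sum.inl i)) = I then
          (if (fun i => e' (Sum.inl i)) = J then u c e * conj (u c e') * S I J else 0) else 0) := by
      intro I J
      simp only [v, map_sum]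
      rw [Finset.sum_mul_sum, Finset.sum_mul]
      refine Finset.sum_congr rfl fun e _ => ?_
      rw [Finset.sum_mul]
      refine Finset.sum_congr rfl fun e' _ => ?_
      split_ifs <;> simp
    simp only [h5]
    calc _ = ∑ I : Fin p → ι, ∑ e : (Fin p ⊕ Fin m) ≃ ι, ∑ J : Fin p → ι,
        ∑ e' : (Fin p ⊕ Fin m) ≃ ι, (if (fun i => e (Sum.inl i)) = I then
          (if (fun i => e' (Sum.inl i)) = J then u c e * conj (u c e') * S I J else 0) else 0) := by
          refine Finset.sum_congr rfl fun I _ => ?_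
          rw [Finset.sum_comm]
      _ = ∑ e : (Fin p ⊕ Fin m) ≃ ι, ∑ I : Fin p → ι, ∑ J : Fin p → ι,
        ∑ e' : (Fin p ⊕ Fin m) ≃ ι, (if (fun i => e (Sum.inl i)) = I then
          (if (fun i => e' (Sum.inl i)) = J then u c e * conj (u c e') * S I J else 0) else 0) := by
          rw [Finset.sum_comm]
      _ = ∑ e : (Fin p ⊕ Fin m) ≃ ι, ∑ I : Fin p → ι, ∑ e' : (Fin p ⊕ Fin m) ≃ ι,
        ∑ J : Fin p → ι, (if (fun i => e (Sum.inl i)) = I then
          (if (fun i => e' (Sum.inl i)) = J then u c e * conj (u c e') * S I J else 0) else 0) := by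
          refine Finset.sum_congr rfl fun e _ => Finset.sum_congr rfl fun I _ => ?_
          rw [Finset.sum_comm]
      _ = ∑ e : (Fin p ⊕ Fin m) ≃ ι, ∑ e' : (Fin p ⊕ Fin m) ≃ ι, ∑ I : Fin p → ι,
        ∑ J : Fin p → ι, (if (fun i => e (Sum.inl i)) = I then
          (if (fun i => e' (Sum.inl i)) = J then u c e * conj (u c e') * S I J else 0) else 0) := by
          refine Finset.sum_congr rfl fun e _ => ?_
          rw [Finset.sum_comm]
      _ = _ := by
          refine Finset.sum_congr rfl fun e _ => Finset.sum_congr rfl fun e' _ => ?_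
          rw [Finset.sum_eq_single (fun i => e (Sum.inl i))]
          · rw [Finset.sum_eq_single (fun i => e' (Sum.inl i))]
            · simp
            · intro J _ hJ
              simp [Ne.symm hJ]
            · intro h; exact absurd (Finset.mem_univ _) h
          · intro I _ hI
            refine Finset.sum_eq_zero fun J _ => ?_
            rw [if_neg (Ne.symm hI)]
          · intro h; exact absurd (Finset.mem_univ _) h
  rw [h4]
  exact hS v

end Pool.Agent.H39.EQ
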