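import Pool.Agent.H92.EQ.TF1

/-!
# Row A6 of eqd_modules: change of basis in `mixD`
-/

set_option autoImplicit false
set_option linter.unusedSectionVars false

namespace Pool.Agent.H39.EQ

open scoped BigOperators ComplexConjugate
open Pool.Agent.H92.EQ

section

variable {ι K : Type} [Fintype ι] [DecidableEq ι] [Fintype K] [DecidableEq K]

/-- the sign of `e` relative to `e0` -/
noncomputable def sgn (e0 e : K ≃ ι) : ℂ := ((Equiv.Perm.sign (e.trans e0.symm) : ℤ) : ℂ)

theorem sgn_fac (e0 e e' : K ≃ ι) :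
    ((Equiv.Perm.sign (e.trans e'.symm) : ℤ) : ℂ) = sgn e0 e * sgn e0 e' := by
  have h : e.trans e'.symm = (e.trans e0.symm).trans ((e'.trans e0.symm).symm) := by
    ext x; simp
  rw [h]
  unfold sgn
  have h2 : Equiv.Perm.sign ((e.trans e0.symm).trans ((e'.trans e0.symm).symm))
      = Equiv.Perm.sign (e.trans e0.symm) * Equiv.Perm.sign (e'.trans e0.symm) := by
    have : (e.trans e0.symm).trans ((e'.trans e0.symm).symm)
        = ((e'.trans e0.symm : Equiv.Perm K)⁻¹) * (e.trans e0.symm : Equiv.Perm K) := rfl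
    rw [this, Equiv.Perm.sign_mul, Equiv.Perm.sign_inv, mul_comm]
  rw [h2]; push_cast; ring

theorem sgn_conj (e0 e : K ≃ ι) : conj (sgn e0 e) = sgn e0 e := by
  unfold sgn; simp

theorem sgn_mul_self (e0 e : K ≃ ι) : sgn e0 e * sgn e0 e = 1 := by
  unfold sgn
  rcases Int.units_eq_one_or (Equiv.Perm.sign (e.trans e0.symm)) with h | h <;> rw [h] <;> simp

/-- the determinant with rows `x` -/
theorem det_rows (e0 : K ≃ ι) (A : Matrix ι ι ℂ) (x : K → ι) :
    ∑ e : K ≃ ι, sgn e0 e * ∏ t, A (x t) (e t) = (A.submatrix x e0).det := by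
  rw [← Matrix.det_transpose, Matrix.det_apply]
  refine Fintype.sum_equiv (Equiv.equivCongr (Equiv.refl K) e0.symm) _ _ ?_
  intro e
  have h1 : (Equiv.equivCongr (Equiv.refl K) e0.symm) e = e.trans e0.symm := by
    ext t; simp
  rw [h1]
  unfold sgn
  simp only [Matrix.transpose_apply, Matrix.submatrix_apply, Equiv.trans_apply,
    Equiv.apply_symm_apply]
  rw [Units.smul_def, zsmul_eq_mul]

theorem det_rows_equiv (e0 e : K ≃ ι) (A : Matrix ι ι ℂ) :
    (A.submatrix e e0).det = sgn e0 e * A.det := by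
  have h1 : A.submatrix e e0 = (A.submatrix e0 e0).submatrix (e.trans e0.symm) id := by
    ext s t; simp
  rw [h1]
  have := Matrix.det_permute (e.trans e0.symm : Equiv.Perm K) (A.submatrix e0 e0)
  rw [this, Matrix.det_submatrix_equiv_self]
  rfl

theorem det_rows_zero (e0 : K ≃ ι) (A : Matrix ι ι ℂ) (x : K → ι) (hx : ¬ Function.Bijective x) :
    (A.submatrix x e0).det = 0 := by
  have hni : ¬ Function.Injective x := by
    intro hi
    exact hx ((Fintype.bijective_iff_injective_and_card x).mpr ⟨hi, Fintype.card_congr e0⟩)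
  simp only [Function.Injective, not_forall] at hni
  obtain ⟨s, t, hst, hne⟩ := hni
  refine Matrix.det_zero_of_row_eq hne ?_
  ext u; simp [hst]

/-- a sum over all functions which is supported on bijections -/
theorem sum_bij (f : (K → ι) → ℂ) (hf : ∀ x, ¬ Function.Bijective x → f x = 0) :
    ∑ x : K → ι, f x = ∑ e : K ≃ ι, f e := by
  classical
  have h1 : ∑ e : K ≃ ι, f e
      = ∑ x ∈ Finset.image (fun e : K ≃ ι => (fun t => e t : K → ι)) Finset.univ, f x := by
    rw [Finset.sum_image]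
    intro a _ b _ hab
    exact Equiv.ext (fun t => congrFun hab t)
  rw [h1]
  symm
  apply Finset.sum_subset (Finset.subset_univ _)
  intro x _ hx
  apply hf
  intro hb
  apply hx
  rw [Finset.mem_image]
  exact ⟨Equiv.ofBijective x hb, Finset.mem_univ _, rfl⟩

end

variable {ι : Type} [Fintype ι] [DecidableEq ι] {p m : ℕ}

/-- the summand of `mixD` -/
def G (S : (Fin p → ι) → (Fin p → ι) → ℂ) (H : Fin m → Matrix ι ι ℂ)
    (x y : Fin p ⊕ Fin m → ι) : ℂ :=
  S (fun i => x (Sum.inl i)) (fun i => y (Sum.inl i)) * ∏ j, H j (x (Sum.inr j)) (y (Sum.inr j))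

theorem mixD_eq (e0 : (Fin p ⊕ Fin m) ≃ ι) (S : (Fin p → ι) → (Fin p → ι) → ℂ)
    (H : Fin m → Matrix ι ι ℂ) :
    mixD S H = ∑ e : (Fin p ⊕ Fin m) ≃ ι, ∑ e' : (Fin p ⊕ Fin m) ≃ ι,
      sgn e0 e * sgn e0 e' * G S H e e' := by
  unfold mixD G
  refine Finset.sum_congr rfl fun e _ => Finset.sum_congr rfl fun e' _ => ?_
  rw [sgn_fac e0]; ring

/-- splitting a sum over functions on `Fin p ⊕ Fin m` -/
theorem sum_split (f : (Fin p ⊕ Fin m → ι) → ℂ) :
    ∑ x, f x = ∑ I : Fin p → ι, ∑ I2 : Fin m → ι, f (Sum.elim I I2) := by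
  rw [← Fintype.sum_prod_type']
  refine Fintype.sum_equiv (Equiv.sumArrowEquivProdArrow (Fin p) (Fin m) ι) _ _ ?_
  intro x
  congr 1
  ext t
  rcases t with t | t <;> rfl

theorem fac (S : (Fin p → ι) → (Fin p → ι) → ℂ) (H : Fin m → Matrix ι ι ℂ)
    (α β : Fin p ⊕ Fin m → ι → ℂ) :
    ∑ x, ∑ y, G S H x y * (∏ t, α t (x t)) * (∏ t, β t (y t)) =
      (∑ I : Fin p → ι, ∑ J : Fin p → ι, S I J * (∏ l, α (Sum.inl l) (I l)) *
        ∏ l, β (Sum.inl l) (J l)) *
      ∏ j, ∑ a, ∑ b, α (Sum.inr j) a * β (Sum.inr j) b * H j a b := by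
  have hR : ∏ j, ∑ a, ∑ b, α (Sum.inr j) a * β (Sum.inr j) b * H j a b =
      ∑ I2 : Fin m → ι, ∑ J2 : Fin m → ι, ∏ j, (α (Sum.inr j) (I2 j) * β (Sum.inr j) (J2 j) *
        H j (I2 j) (J2 j)) := by
    rw [Finset.prod_univ_sum, Fintype.piFinset_univ]
    refine Finset.sum_congr rfl fun I2 _ => ?_
    rw [Finset.prod_univ_sum, Fintype.piFinset_univ]
  rw [hR, sum_split]
  have hL : ∀ (I : Fin p → ι) (I2 : Fin m → ι),
      ∑ y, G S H (Sum.elim I I2) y * (∏ t, α t (Sum.elim I I2 t)) * (∏ t, β t (y t)) =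
      ∑ J : Fin p → ι, ∑ J2 : Fin m → ι, (S I J * (∏ l, α (Sum.inl l) (I l)) *
        ∏ l, β (Sum.inl l) (J l)) * ∏ j, (α (Sum.inr j) (I2 j) * β (Sum.inr j) (J2 j) *
        H j (I2 j) (J2 j)) := by
    intro I I2
    rw [sum_split]
    refine Finset.sum_congr rfl fun J _ => Finset.sum_congr rfl fun J2 _ => ?_
    unfold G
    simp only [Sum.elim_inl, Sum.elim_inr, Fintype.prod_sum_type, Finset.prod_mul_distrib]
    ring
  simp only [hL]
  rw [Finset.sum_mul]
  refine Finset.sum_congr rfl fun I _ => ?_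
  rw [Finset.sum_comm, Finset.sum_mul]
  refine Finset.sum_congr rfl fun J _ => ?_
  rw [Finset.mul_sum]
  refine Finset.sum_congr rfl fun I2 _ => ?_
  rw [Finset.mul_sum]

theorem pf_A6 : T_A6 := by
  intro ι _ _ p m S H A B
  classical
  by_cases hne : Nonempty ((Fin p ⊕ Fin m) ≃ ι)
  swap
  · have : IsEmpty ((Fin p ⊕ Fin m) ≃ ι) := not_nonempty_iff.mp hne
    unfold mixD
    simp
  obtain ⟨e0⟩ := hne
  -- the master sum
  have hM1 : ∑ x, ∑ y, G S H x y * (A.submatrix x e0).det * conj ((B.submatrix y e0).det)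
      = A.det * conj B.det * mixD S H := by
    rw [sum_bij]
    swap
    · intro x hx
      refine Finset.sum_eq_zero fun y _ => ?_
      rw [det_rows_zero e0 A x hx]; ring
    rw [mixD_eq e0, Finset.mul_sum]
    refine Finset.sum_congr rfl fun e _ => ?_
    rw [sum_bij, Finset.mul_sum]
    · refine Finset.sum_congr rfl fun e' _ => ?_
      rw [det_rows_equiv, det_rows_equiv, map_mul, sgn_conj]
      ring
    · intro y hy
      rw [det_rows_zero e0 B y hy, map_zero]; ring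
  rw [← hM1]
  refine (mixD_eq e0 _ _).trans ?_
  -- expand the determinants
  have hA : ∀ x, (A.submatrix x e0).det = ∑ e : (Fin p ⊕ Fin m) ≃ ι, sgn e0 e *
      ∏ t, A (x t) (e t) := fun x => (det_rows e0 A x).symm
  have hB : ∀ y, conj ((B.submatrix y e0).det) = ∑ e' : (Fin p ⊕ Fin m) ≃ ι, sgn e0 e' *
      ∏ t, conj (B (y t) (e' t)) := by
    intro y
    rw [← det_rows e0 B y, map_sum]
    refine Finset.sum_congr rfl fun e' _ => ?_
    rw [map_mul, sgn_conj, map_prod]
  have hM2 : ∑ x, ∑ y, G S H x y * (A.submatrix x e0).det * conj ((B.submatrix y e0).det)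
      = ∑ e : (Fin p ⊕ Fin m) ≃ ι, ∑ e' : (Fin p ⊕ Fin m) ≃ ι, sgn e0 e * sgn e0 e' *
        ∑ x, ∑ y, G S H x y * (∏ t, A (x t) (e t)) * (∏ t, conj (B (y t) (e' t))) := by
    have h1 : ∀ x y, G S H x y * (A.submatrix x e0).det * conj ((B.submatrix y e0).det)
        = ∑ e : (Fin p ⊕ Fin m) ≃ ι, ∑ e' : (Fin p ⊕ Fin m) ≃ ι, sgn e0 e * sgn e0 e' *
          (G S H x y * (∏ t, A (x t) (e t)) * (∏ t, conj (B (y t) (e' t)))) := by
      intro x y
      rw [hA, hB, mul_assoc, Finset.sum_mul_sum, Finset.mul_sum]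
      refine Finset.sum_congr rfl fun e _ => ?_
      rw [Finset.mul_sum]
      refine Finset.sum_congr rfl fun e' _ => ?_
      ring
    simp only [h1, Finset.mul_sum]
    calc _ = ∑ x, ∑ e : (Fin p ⊕ Fin m) ≃ ι, ∑ y, ∑ e' : (Fin p ⊕ Fin m) ≃ ι,
          sgn e0 e * sgn e0 e' *
          (G S H x y * (∏ t, A (x t) (e t)) * (∏ t, conj (B (y t) (e' t)))) := by
            refine Finset.sum_congr rfl fun x _ => ?_
            rw [Finset.sum_comm]
      _ = ∑ e : (Fin p ⊕ Fin m) ≃ ι, ∑ x, ∑ y, ∑ e' : (Fin p ⊕ Fin m) ≃ ι,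
          sgn e0 e * sgn e0 e' *
          (G S H x y * (∏ t, A (x t) (e t)) * (∏ t, conj (B (y t) (e' t)))) := by
            rw [Finset.sum_comm]
      _ = ∑ e : (Fin p ⊕ Fin m) ≃ ι, ∑ x, ∑ e' : (Fin p ⊕ Fin m) ≃ ι, ∑ y,
          sgn e0 e * sgn e0 e' *
          (G S H x y * (∏ t, A (x t) (e t)) * (∏ t, conj (B (y t) (e' t)))) := by
            refine Finset.sum_congr rfl fun e _ => Finset.sum_congr rfl fun x _ => ?_
            rw [Finset.sum_comm]
      _ = _ := by
            refine Finset.sum_congr rfl fun e _ => ?_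
            rw [Finset.sum_comm]
  rw [hM2]
  refine Finset.sum_congr rfl fun e _ => Finset.sum_congr rfl fun e' _ => ?_
  congr 1
  have h3 := fac S H (fun t a => A a (e t)) (fun t b => conj (B b (e' t)))
  rw [h3]
  rfl

end Pool.Agent.H39.EQ
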