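import Pool.Agent.H39.EQ.TB

/-!
# Row TF of eqd_modules: the mass of a one parameter family, telescoping
-/

set_option autoImplicit false
set_option linter.unusedSectionVars false

namespace Pool.Agent.H39.EQ.TF

open scoped BigOperators ComplexConjugate ContDiff ComplexOrder
open MeasureTheory Pool.Agent.H92.EQ Pool.Agent.H39.EQ.TB

/-! ### A test function times a function continuous on the open set -/

theorem lapl_cont {f : ℂ → ℝ} (hf : ContDiff ℝ ∞ f) : Continuous (lapl f) := by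
  unfold lapl
  have h1 : ∀ v : ℂ, ContDiff ℝ ∞ (fun s => fderiv ℝ f s v) := fun v =>
    (hf.fderiv_right (m := ∞) (by simp)).clm_apply contDiff_const
  have h2 : ∀ v : ℂ, Continuous (fun t => fderiv ℝ (fun s => fderiv ℝ f s v) t v) := fun v =>
    (((h1 v).fderiv_right (m := ∞) (by simp)).clm_apply contDiff_const).continuous
  exact continuous_const.mul ((h2 1).add (h2 Complex.I))

theorem lapl_supp (f : ℂ → ℝ) : tsupport (lapl f) ⊆ tsupport f := by
  apply closure_minimal _ (isClosed_tsupport f)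
  intro t ht
  by_contra hcon
  apply ht
  have h1 : f =ᶠ[nhds t] 0 := notMem_tsupport_iff_eventuallyEq.mp hcon
  have h2 : ∀ v : ℂ, (fun s => fderiv ℝ f s v) =ᶠ[nhds t] fun _ => 0 := by
    intro v
    filter_upwards [h1.eventuallyEq_nhds] with s hs
    rw [hs.fderiv_eq]
    simp
  unfold lapl
  rw [(h2 1).fderiv_eq, (h2 Complex.I).fderiv_eq]
  simp

theorem mul_cont {V : Set ℂ} (hV : IsOpen V) {g F : ℂ → ℝ} (hg : Continuous g)
    (hs : tsupport g ⊆ V) (hF : ContinuousOn F V) : Continuous (fun t => g t * F t) := by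
  rw [continuous_iff_continuousAt]
  intro t
  by_cases ht : t ∈ tsupport g
  · exact hg.continuousAt.mul (hF.continuousAt (hV.mem_nhds (hs ht)))
  · have h1 : g =ᶠ[nhds t] 0 := notMem_tsupport_iff_eventuallyEq.mp ht
    have h2 : (fun t => g t * F t) =ᶠ[nhds t] fun _ => 0 := by
      filter_upwards [h1] with s hs
      simp [hs]
    exact (continuousAt_const (y := (0 : ℝ))).congr h2.symm

theorem mul_int {V : Set ℂ} (hV : IsOpen V) {g F : ℂ → ℝ} (hg : Continuous g)
    (hc : HasCompactSupport g) (hs : tsupport g ⊆ V) (hF : ContinuousOn F V) :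
    Integrable (fun t => g t * F t) := by
  exact (mul_cont hV hg hs hF).integrable_of_hasCompactSupport hc.mul_right

theorem lapl_compact {f : ℂ → ℝ} (hf : HasCompactSupport f) : HasCompactSupport (lapl f) :=
  hf.mono' (subset_closure.trans (lapl_supp f))

/-! ### The annulus -/

section ann

variable {N : ℕ}

theorem nsq_cont : Continuous (nsq : (Fin N → ℂ) → ℝ) := by
  unfold nsq
  exact continuous_finsetSum _ fun i _ => ((continuous_apply i).norm.pow 2)

theorem ann_int (f : (Fin (N + 1) → ℂ) → ℝ) (hf : ContinuousOn f {0}ᶜ) :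
    IntegrableOn f {z : Fin (N + 1) → ℂ | 0 ≤ ell z ∧ ell z < 1} := by
  set K : Set (Fin (N + 1) → ℂ) := {z | 1 ≤ nsq z ∧ nsq z ≤ Real.exp 2} with hK
  have hKc : IsCompact K := by
    apply Metric.isCompact_of_isClosed_isBounded
    · exact (isClosed_le continuous_const nsq_cont).inter (isClosed_le nsq_cont continuous_const)
    · refine (Metric.isBounded_closedBall (x := (0 : Fin (N + 1) → ℂ)) (r := Real.exp 1)).subset ?_
      intro z hz
      rw [Metric.mem_closedBall, dist_zero_right, pi_norm_le_iff_of_nonneg (Real.exp_pos 1).le]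
      intro i
      have h1 : ‖z i‖ ^ 2 ≤ nsq z := by
        unfold nsq
        exact Finset.single_le_sum (f := fun i => ‖z i‖ ^ 2) (fun i _ => by positivity)
          (Finset.mem_univ i)
      have h2 : ‖z i‖ ^ 2 ≤ Real.exp 1 ^ 2 := by
        refine (h1.trans hz.2).trans (le_of_eq ?_)
        rw [← Real.exp_nat_mul]; norm_num
      exact (pow_le_pow_iff_left₀ (norm_nonneg _) (Real.exp_pos 1).le two_ne_zero).mp h2
  have hK0 : K ⊆ {0}ᶜ := by
    intro z hz h0
    have h1 : z = 0 := h0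
    have h2 := hz.1
    rw [h1] at h2
    unfold nsq at h2
    simp at h2
    exact absurd h2 (by norm_num)
  have hsub : {z : Fin (N + 1) → ℂ | 0 ≤ ell z ∧ ell z < 1} ⊆ K ∪ {0} := by
    intro z hz
    by_cases h0 : z = 0
    · right; exact h0
    left
    have hp := nsq_pos h0
    have h1 : 0 ≤ Real.log (nsq z) := by
      have := hz.1; unfold ell at this; linarith
    have h2 : Real.log (nsq z) ≤ 2 := by
      have := hz.2; unfold ell at this; linarith
    refine ⟨?_, ?_⟩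
    · by_contra hcon
      push Not at hcon
      have := Real.log_neg hp hcon
      linarith
    · exact (Real.log_le_iff_le_exp hp).mp h2
  have h3 : IntegrableOn f K := (hf.mono hK0).integrableOn_compact hKc
  have h4 : IntegrableOn f {0} := by
    rw [IntegrableOn, Measure.restrict_singleton]
    simp
  exact (h3.union h4).mono_set hsub

theorem ae_ne : ∀ᵐ z : Fin (N + 1) → ℂ, z ≠ 0 := by
  rw [ae_iff]
  simp

theorem Iint_congr {ψ ψ' : (Fin (N + 1) → ℂ) → ℝ} (h : ∀ z, z ≠ 0 → ψ z = ψ' z) :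
    Iint ψ = Iint ψ' := by
  unfold Iint
  refine integral_congr_ae ?_
  filter_upwards [ae_restrict_of_ae ae_ne] with z hz
  exact h z hz

theorem Iint_nonneg {ψ : (Fin (N + 1) → ℂ) → ℝ} (h : ∀ z, z ≠ 0 → 0 ≤ ψ z) : 0 ≤ Iint ψ := by
  unfold Iint
  refine integral_nonneg_of_ae ?_
  filter_upwards [ae_restrict_of_ae ae_ne] with z hz
  exact h z hz

theorem Iint_zero {ψ : (Fin (N + 1) → ℂ) → ℝ} (h : ∀ z, z ≠ 0 → ψ z = 0) : Iint ψ = 0 := by
  rw [Iint_congr (ψ' := fun _ => 0) h]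
  unfold Iint
  simp

theorem Iint_sub {ψ ψ' : (Fin (N + 1) → ℂ) → ℝ} (h : ContinuousOn ψ {0}ᶜ)
    (h' : ContinuousOn ψ' {0}ᶜ) : Iint (fun z => ψ z - ψ' z) = Iint ψ - Iint ψ' := by
  unfold Iint
  exact integral_sub (ann_int _ h) (ann_int _ h')

end ann

/-! ### Hessians -/

section hs

variable {ι κ : Type} [Fintype ι] [DecidableEq ι] [Fintype κ] [DecidableEq κ]

theorem wd_congr {f g : (ι → ℂ) → ℂ} {z : ι → ℂ} (a : ι) (h : f =ᶠ[nhds z] g) :
    wd a f z = wd a g z := by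
  unfold wd
  rw [h.fderiv_eq]

theorem hess_add (h1 : T_W1) (h6 : T_W6) {U : Set (ι → ℂ)} (hU : IsOpen U) {f g : (ι → ℂ) → ℂ}
    (hf : ContDiffOn ℝ ∞ f U) (hg : ContDiffOn ℝ ∞ g U) {z : ι → ℂ} (hz : z ∈ U) :
    hess (fun w => f w + g w) z = hess f z + hess g z := by
  have hd : ∀ {F : (ι → ℂ) → ℂ}, ContDiffOn ℝ ∞ F U → ∀ w ∈ U, DifferentiableAt ℝ F w := by
    intro F hF w hw
    exact ((hF.contDiffAt (hU.mem_nhds hw)).differentiableAt (by simp))
  ext a b
  unfold hess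
  have e1 : (fun w => wdb b (fun w => f w + g w) w) =ᶠ[nhds z]
      fun w => wdb b f w + wdb b g w := by
    filter_upwards [hU.mem_nhds hz] with w hw
    exact (h1 ι b f g w (hd hf w hw) (hd hg w hw)).2.1
  rw [wd_congr a e1]
  have hf' := (h6 ι b f U hU hf).2
  have hg' := (h6 ι b g U hU hg).2
  exact (h1 ι a (fun w => wdb b f w) (fun w => wdb b g w) z (hd hf' z hz) (hd hg' z hz)).1

theorem cx_smooth {U : Set (ι → ℂ)} {φ : (ι → ℂ) → ℝ} (hφ : ContDiffOn ℝ ∞ φ U) :
    ContDiffOn ℝ ∞ (fun w => (φ w : ℂ)) U :=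
  Complex.ofRealCLM.contDiff.comp_contDiffOn hφ

theorem hessR_sub_add (h1 : T_W1) (h6 : T_W6) {U : Set (ι → ℂ)} (hU : IsOpen U)
    {φ ψ : (ι → ℂ) → ℝ} (hφ : ContDiffOn ℝ ∞ φ U) (hψ : ContDiffOn ℝ ∞ ψ U) {z : ι → ℂ}
    (hz : z ∈ U) : hessR (fun w => φ w - ψ w) z + hessR ψ z = hessR φ z := by
  unfold hessR
  rw [← hess_add h1 h6 hU (cx_smooth (hφ.sub hψ)) (cx_smooth hψ) hz]
  congr 1
  funext w
  push_cast
  ring

theorem hess_pull (h4 : T_W4) (G : ι → MvPolynomial κ ℂ) (φ : (ι → ℂ) → ℝ) (z : κ → ℂ)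
    (hφ : ContDiffAt ℝ 2 φ (ev G z)) :
    hessR (fun z => φ (ev G z)) z
      = ((jac G z).transpose * hessR φ (ev G z)) * ((jac G z).transpose).conjTranspose := by
  have hcd : ContDiffAt ℝ 2 (fun y : ι → ℂ => (φ y : ℂ)) (ev G z) :=
    Complex.ofRealCLM.contDiff.contDiffAt.comp _ hφ
  ext a b
  rw [Matrix.mul_apply]
  simp only [Matrix.mul_apply, Matrix.transpose_apply, Matrix.conjTranspose_apply]
  have h10 := h4 _ _ G (fun y : ι → ℂ => (φ y : ℂ)) z hcd a b
  unfold hessR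
  rw [h10, Finset.sum_comm]
  refine Finset.sum_congr rfl fun j _ => ?_
  rw [Finset.sum_mul]
  refine Finset.sum_congr rfl fun i _ => ?_
  have : star (jac G z j b) = conj (jac G z j b) := rfl
  rw [this]; ring

end hs

/-! ### `QT` and `mT` -/

section qt

variable {N p m : ℕ}

/-- extending a permutation by a fixed last point -/
def extP (π : Equiv.Perm (Fin m)) : Equiv.Perm (Fin (m + 1)) :=
  finSuccEquivLast.trans ((Equiv.optionCongr π).trans finSuccEquivLast.symm)

theorem extP_last (π : Equiv.Perm (Fin m)) : extP π (Fin.last m) = Fin.last m := by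
  simp [extP]

theorem extP_castSucc (π : Equiv.Perm (Fin m)) (k : Fin m) :
    extP π k.castSucc = (π k).castSucc := by
  simp [extP]

theorem QT_perm (hA2 : T_A2) (S : Form (Fin (N + 1)) p) (v : Fin m → (Fin (N + 1) → ℂ) → ℝ)
    (π : Equiv.Perm (Fin m)) (z : Fin (N + 1) → ℂ) : QT S (fun j => v (π j)) z = QT S v z := by
  unfold QT
  rw [← hA2 _ p (m + 1) (S z) (Fin.snoc (α := fun _ => Matrix (Fin (N + 1)) (Fin (N + 1)) ℂ)
    (fun j => hessR (v j) z) (RadT z)) (extP π)]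
  congr 2
  funext k
  refine Fin.lastCases ?_ (fun k => ?_) k
  · rw [extP_last, Fin.snoc_last, Fin.snoc_last]
  · rw [extP_castSucc, Fin.snoc_castSucc, Fin.snoc_castSucc]

theorem QT_congr (S : Form (Fin (N + 1)) p) {v w : Fin m → (Fin (N + 1) → ℂ) → ℝ}
    (h : v = w) (z : Fin (N + 1) → ℂ) : QT S v z = QT S w z := by rw [h]

theorem QT_sub (hA1 : T_A1) (h1 : T_W1) (h6 : T_W6) {U : Set (Fin (N + 1) → ℂ)} (hU : IsOpen U)
    (S : Form (Fin (N + 1)) p) (a b : (Fin (N + 1) → ℂ) → ℝ)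
    (L : Fin m → (Fin (N + 1) → ℂ) → ℝ) (ha : ContDiffOn ℝ ∞ a U) (hb : ContDiffOn ℝ ∞ b U)
    (z : Fin (N + 1) → ℂ) (hz : z ∈ U) :
    QT S (Fin.cons (α := fun _ => (Fin (N + 1) → ℂ) → ℝ) (fun w => a w - b w) L) z =
      QT S (Fin.cons (α := fun _ => (Fin (N + 1) → ℂ) → ℝ) a L) z -
      QT S (Fin.cons (α := fun _ => (Fin (N + 1) → ℂ) → ℝ) b L) z := by
  have hupd : ∀ c : (Fin (N + 1) → ℂ) → ℝ,
      (Fin.snoc (α := fun _ => Matrix (Fin (N + 1)) (Fin (N + 1)) ℂ)
        (fun j => hessR ((Fin.cons (α := fun _ => (Fin (N + 1) → ℂ) → ℝ) c L :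
          Fin (m + 1) → (Fin (N + 1) → ℂ) → ℝ) j) z) (RadT z) :
          Fin (m + 1 + 1) → Matrix (Fin (N + 1)) (Fin (N + 1)) ℂ) =
      Function.update (Fin.snoc (α := fun _ => Matrix (Fin (N + 1)) (Fin (N + 1)) ℂ)
        (fun j => hessR ((Fin.cons (α := fun _ => (Fin (N + 1) → ℂ) → ℝ) a L :
          Fin (m + 1) → (Fin (N + 1) → ℂ) → ℝ) j) z) (RadT z)) 0 (hessR c z) := by
    intro c
    funext k
    refine Fin.lastCases ?_ (fun k => ?_) k
    · rw [Function.update_of_ne (by exact Fin.last_pos.ne'), Fin.snoc_last, Fin.snoc_last]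
    · refine Fin.cases ?_ (fun k => ?_) k
      · rw [Fin.snoc_castSucc, Fin.castSucc_zero, Function.update_self, Fin.cons_zero]
      · rw [Function.update_of_ne (by
          rw [← Fin.castSucc_zero]
          exact fun h => Fin.succ_ne_zero k (Fin.castSucc_injective _ h)),
          Fin.snoc_castSucc, Fin.snoc_castSucc, Fin.cons_succ, Fin.cons_succ]
  unfold QT
  rw [hupd a, hupd b, hupd (fun w => a w - b w)]
  have h2 := (hA1 _ p (m + 1 + 1) (S z) (S z)
    (Fin.snoc (α := fun _ => Matrix (Fin (N + 1)) (Fin (N + 1)) ℂ)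
        (fun j => hessR ((Fin.cons (α := fun _ => (Fin (N + 1) → ℂ) → ℝ) a L :
          Fin (m + 1) → (Fin (N + 1) → ℂ) → ℝ) j) z) (RadT z)) 0
    (hessR (fun w => a w - b w) z) (hessR b z) 0).1
  rw [hessR_sub_add h1 h6 hU ha hb hz] at h2
  rw [h2, Complex.add_re]
  ring

end qt

end Pool.Agent.H39.EQ.TF
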