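import Pool.Agent.H39.EQ.TF

/-!
# Row TF of eqd_modules: the mass of a one parameter family, telescoping
-/

set_option autoImplicit false
set_option linter.unusedSectionVars false

namespace Pool.Agent.H39.EQ.TF

open scoped BigOperators ComplexConjugate ContDiff ComplexOrder
open MeasureTheory Pool.Agent.H92.EQ Pool.Agent.H39.EQ.TB

theorem tl_ct {N : ℕ} (t : ℂ) (x : Fin N → ℂ) : tl (ct t x) = x := by
  funext i; simp [tl, ct]

theorem ct_zero {N : ℕ} (t : ℂ) (x : Fin N → ℂ) : ct t x 0 = t := by simp [ct]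

theorem ct_tl {N : ℕ} (z : Fin (N + 1) → ℂ) : ct (z 0) (tl z) = z := by
  funext i; refine Fin.cases ?_ (fun i => ?_) i <;> simp [tl, ct]

theorem tl_contDiff {N : ℕ} : ContDiff ℝ ∞ (tl : (Fin (N + 1) → ℂ) → Fin N → ℂ) := by
  rw [contDiff_pi]
  intro i
  exact contDiff_apply ℝ ℂ i.succ

theorem ct_cont {N : ℕ} (t : ℂ) : Continuous (fun x : Fin N → ℂ => ct t x) := by
  rw [continuous_pi_iff]
  intro i
  refine Fin.cases ?_ (fun i => ?_) i
  · simpa [ct] using continuous_const
  · simpa [ct] using continuous_apply i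

theorem WV_open {N : ℕ} {V : Set ℂ} (hV : IsOpen V) : IsOpen (WV N V) := by
  have h1 : IsOpen ((fun z : Fin (N + 1) → ℂ => z 0) ⁻¹' V) := hV.preimage (continuous_apply 0)
  have h2 : IsOpen ((tl : (Fin (N + 1) → ℂ) → Fin N → ℂ) ⁻¹' {0}ᶜ) :=
    isOpen_compl_singleton.preimage tl_contDiff.continuous
  exact h1.inter h2

theorem weak_sum {V : Set ℂ} (hV : IsOpen V) {n : ℕ} (F m : Fin n → ℂ → ℝ)
    (hF : ∀ j, ContinuousOn (F j) V) (hm : ∀ j, ContinuousOn (m j) V)
    (hw : ∀ j, Weak V (F j) (m j)) : Weak V (fun t => ∑ j, F j t) (fun t => ∑ j, m j t) := by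
  intro f hf
  have h1 : ∀ j, Integrable (fun t => lapl f t * F j t) := fun j =>
    mul_int hV (lapl_cont hf.smooth) (lapl_compact hf.cpt) ((lapl_supp f).trans hf.sub) (hF j)
  have h2 : ∀ j, Integrable (fun t => f t * m j t) := fun j =>
    mul_int hV hf.smooth.continuous hf.cpt hf.sub (hm j)
  simp only [Finset.mul_sum]
  rw [integral_finsetSum _ (fun j _ => h1 j), integral_finsetSum _ (fun j _ => h2 j)]
  exact Finset.sum_congr rfl fun j _ => hw j f hf

theorem weak_congr {V : Set ℂ} {F m m' : ℂ → ℝ} (h : ∀ t ∈ V, m t = m' t) (hw : Weak V F m) :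
    Weak V F m' := by
  intro f hf
  rw [hw f hf]
  congr 1
  funext t
  by_cases ht : t ∈ V
  · rw [h t ht]
  · have : f t = 0 := image_eq_zero_of_notMem_tsupport (fun h' => ht (hf.sub h'))
    rw [this]; ring

section step

variable {X : Type} {q : ℕ}

/-- the first `k` entries replaced by `β` -/
def Tf (β : X) (U : Fin (q + 1) → X) (k : ℕ) (i : Fin (q + 1)) : X :=
  if (i : ℕ) < k then β else U i

/-- the same without the entry `j` -/
def Lf (β : X) (U : Fin (q + 1) → X) (j : Fin (q + 1)) (i : Fin q) : X :=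
  if (i : ℕ) < (j : ℕ) then β else U i.succ

theorem Tf_perm (β : X) (U : Fin (q + 1) → X) (j : Fin (q + 1)) :
    (fun i => Tf β U j (j.cycleRange.symm i)) = Fin.cons (α := fun _ => X) (U j) (Lf β U j) := by
  funext i
  refine Fin.cases ?_ (fun i => ?_) i
  · rw [Fin.cons_zero, Fin.cycleRange_symm_zero, Tf, if_neg (lt_irrefl _)]
  · rw [Fin.cons_succ, Fin.cycleRange_symm_succ, Tf, Lf]
    by_cases hij : (i : ℕ) < (j : ℕ)
    · rw [if_pos hij, Fin.succAbove_of_castSucc_lt _ _ (by
        rw [Fin.lt_def]; simpa using hij), if_pos (by rw [Fin.val_castSucc]; exact hij)]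
    · rw [if_neg hij, Fin.succAbove_of_le_castSucc _ _ (by
        rw [Fin.le_def]; simpa using not_lt.mp hij), if_neg (by
        rw [Fin.val_succ]; omega)]

theorem Tf_perm' (β : X) (U : Fin (q + 1) → X) (j : Fin (q + 1)) :
    (fun i => Tf β U (j + 1) (j.cycleRange.symm i)) = Fin.cons (α := fun _ => X) β (Lf β U j) := by
  funext i
  refine Fin.cases ?_ (fun i => ?_) i
  · rw [Fin.cons_zero, Fin.cycleRange_symm_zero, Tf, if_pos (Nat.lt_succ_self _)]
  · rw [Fin.cons_succ, Fin.cycleRange_symm_succ, Tf, Lf]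
    by_cases hij : (i : ℕ) < (j : ℕ)
    · rw [if_pos hij, Fin.succAbove_of_castSucc_lt _ _ (by
        rw [Fin.lt_def]; simpa using hij), if_pos (by rw [Fin.val_castSucc]; omega)]
    · rw [if_neg hij, Fin.succAbove_of_le_castSucc _ _ (by
        rw [Fin.le_def]; simpa using not_lt.mp hij), if_neg (by
        rw [Fin.val_succ]; omega)]

theorem step_eq {n p : ℕ} (hA1 : T_A1) (hA2 : T_A2) (h1 : T_W1) (h6 : T_W6)
    {W : Set (Fin (n + 1) → ℂ)} (hW : IsOpen W) (S : Form (Fin (n + 1)) p)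
    (β : (Fin (n + 1) → ℂ) → ℝ) (U : Fin (q + 1) → (Fin (n + 1) → ℂ) → ℝ) (j : Fin (q + 1))
    (hU : ContDiffOn ℝ ∞ (U j) W) (hβ : ContDiffOn ℝ ∞ β W) (z : Fin (n + 1) → ℂ) (hz : z ∈ W) :
    QT S (Fin.cons (α := fun _ => (Fin (n + 1) → ℂ) → ℝ) (fun w => U j w - β w) (Lf β U j)) z =
      QT S (Tf β U j) z - QT S (Tf β U (j + 1)) z := by
  have e1 := QT_perm hA2 S (Tf β U j) j.cycleRange.symm z
  have e2 := QT_perm hA2 S (Tf β U (j + 1)) j.cycleRange.symm z
  rw [Tf_perm] at e1
  rw [Tf_perm'] at e2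
  rw [← e1, ← e2]
  exact QT_sub hA1 h1 h6 hW S (U j) β (Lf β U j) hU hβ z hz

end step

theorem pf_TF (hTA : T_TA) (hTB : T_TB) (hTC : T_TC) (hTC2 : T_TC2) (hTD : T_TD) (hTE : T_TE)
    (hA1 : T_A1) (hA2 : T_A2) (hA4 : T_A4) (hP3 : T_P3) (hW1 : T_W1) (hW4 : T_W4) (hW6 : T_W6)
    (hW8 : T_W8) : T_TF := by
  intro N p q D V G S u K hN hV hD hG hne hS hu hK
  classical
  obtain ⟨n, rfl⟩ : ∃ n, N = n + 1 := ⟨p + q, by omega⟩
  set β : (Fin (n + 1 + 1) → ℂ) → ℝ := fun z => (1 / (D : ℝ)) * ell (ev G z) with hβ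
  set U : Fin (q + 1) → (Fin (n + 1 + 1) → ℂ) → ℝ := fun j z => u j (tl z) with hU
  obtain ⟨hS', hβL0, hβp0⟩ := hTB (n + 1) p D V G S hV hD hG hne hS
  have hβL : LHT V 1 β := hβL0
  have hβp : ∀ z ∈ WV (n + 1) V, (hessR β z).PosSemidef := hβp0
  have hWo := WV_open (N := n + 1) hV
  have hct : ∀ t ∈ V, ∀ x : Fin (n + 1) → ℂ, x ≠ 0 → ct t x ∈ WV (n + 1) V := by
    intro t ht x hx
    refine ⟨?_, ?_⟩
    · rw [ct_zero]; exact ht
    · rw [tl_ct]; exact hx
  have hUL : ∀ j, LHT V 1 (U j) := by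
    intro j
    refine ⟨(hu j).smooth.comp tl_contDiff.contDiffOn (fun z hz => hz.2), ?_⟩
    intro l z hl hz
    simp only [hU, tl_ct]
    rw [(hu j).loghom l (tl z) hl hz.2, one_mul]
  let T : ℕ → Fin (q + 1) → (Fin (n + 1 + 1) → ℂ) → ℝ := fun k i => Tf β U k i
  let L : Fin (q + 1) → Fin q → (Fin (n + 1 + 1) → ℂ) → ℝ := fun j i => Lf β U j i
  have hTL : ∀ k i, LHT V 1 (T k i) := by
    intro k i
    simp only [T, Tf]
    split_ifs
    · exact hβL
    · exact hUL i
  have hLL : ∀ j i, LHT V 1 (L j i) := by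
    intro j i
    simp only [L, Lf]
    split_ifs
    · exact hβL
    · exact hUL i.succ
  have hd0 : ∀ j, LHT V 0 (fun z => U j z - β z) := by
    intro j
    refine ⟨(hUL j).smooth.sub hβL.smooth, ?_⟩
    intro l z hl hz
    rw [(hUL j).hom l z hl hz, hβL.hom l z hl hz]
    ring
  -- continuity
  have hQc : ∀ (v : Fin (q + 1) → (Fin (n + 1 + 1) → ℂ) → ℝ) (c : Fin (q + 1) → ℝ),
      (∀ i, LHT V (c i) (v i)) → ContinuousOn (fun z => QT (pull G S) v z) (WV (n + 1) V) ∧
      ContinuousOn (mT (pull G S) v) V := fun v c hv =>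
    (hTC (n + 1) p (q + 1) V (pull G S) v c hV hS' hv).2.2.2
  have hQx : ∀ (v : Fin (q + 1) → (Fin (n + 1 + 1) → ℂ) → ℝ) (c : Fin (q + 1) → ℝ),
      (∀ i, LHT V (c i) (v i)) → ∀ t ∈ V,
      ContinuousOn (fun x : Fin (n + 1) → ℂ => QT (pull G S) v (ct t x)) {0}ᶜ := by
    intro v c hv t ht
    exact (hQc v c hv).1.comp (ct_cont t).continuousOn (fun x hx => hct t ht x hx)
  -- one step
  have hstep : ∀ (j : Fin (q + 1)), ∀ t ∈ V,
      mT (pull G S) (Fin.cons (α := fun _ => (Fin (n + 1 + 1) → ℂ) → ℝ)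
        (fun z => U j z - β z) (L j)) t =
      mT (pull G S) (T j) t - mT (pull G S) (T (j + 1)) t := by
    intro j t ht
    unfold mT
    rw [← Iint_sub (hQx (T j) (fun _ => 1) (fun i => hTL _ i) t ht)
      (hQx (T (j + 1)) (fun _ => 1) (fun i => hTL _ i) t ht)]
    apply Iint_congr
    intro x hx
    exact step_eq hA1 hA2 hW1 hW6 hWo (pull G S) β U j (hUL j).smooth hβL.smooth _
      (hct t ht x hx)
  -- the end of the telescope
  have hend : ∀ t ∈ V, mT (pull G S) (T (q + 1)) t = 0 := by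
    intro t ht
    unfold mT
    apply Iint_zero
    intro x hx
    have h1 : T (q + 1) = fun _ : Fin (q + 1) => fun z => (1 / (D : ℝ)) * ell (ev G z) := by
      funext i
      simp only [T, Tf]
      rw [if_pos i.isLt]
    rw [h1]
    exact hTE (n + 1) p q D V G S hN hV hD hG hne hS _ (hct t ht x hx)
  have hstart : T 0 = U := by
    funext i
    simp [T, Tf]
  have htel : ∀ t ∈ V, ∑ j : Fin (q + 1), mT (pull G S)
      (Fin.cons (α := fun _ => (Fin (n + 1 + 1) → ℂ) → ℝ) (fun z => U j z - β z) (L j)) t =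
      mT (pull G S) U t := by
    intro t ht
    rw [Finset.sum_congr rfl (fun j _ => hstep j t ht)]
    have h1 := Finset.sum_range (n := q + 1)
      (fun k => mT (pull G S) (T k) t - mT (pull G S) (T (k + 1)) t)
    rw [← h1, Finset.sum_range_sub', hend t ht, hstart, sub_zero]
  refine ⟨?_, ?_, ?_⟩
  · -- positivity
    intro t ht
    unfold mT
    apply Iint_nonneg
    intro x hx
    unfold QT
    have hz := hct t ht x hx
    have h1 := hA4 (Fin (n + 1 + 1)) p (q + 1 + 1) (pull G S (ct t x))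
      (Fin.snoc (α := fun _ => Matrix (Fin (n + 1 + 1)) (Fin (n + 1 + 1)) ℂ)
        (fun j => hessR (U j) (ct t x)) (RadT (ct t x))) (hS'.psd _ hz) ?_
    · exact (Complex.nonneg_iff.mp h1).1
    intro i
    refine Fin.lastCases ?_ (fun i => ?_) i
    · rw [Fin.snoc_last]
      have h2 : RadT (ct t x) = Matrix.vecMulVec (gd (cx ellT) (ct t x))
          (star (gd (cx ellT) (ct t x))) := by
        ext a b
        rw [Matrix.vecMulVec_apply]
        simp only [RadT, out, gdb, gd]
        rw [(hW8 _ ellT (ct t x)).1 b]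
        rfl
      rw [h2]
      exact Matrix.posSemidef_vecMulVec_self_star _
    · rw [Fin.snoc_castSucc]
      let Gt : Fin (n + 1) → MvPolynomial (Fin (n + 1 + 1)) ℂ := fun i => MvPolynomial.X i.succ
      have hGt : ∀ z, ev Gt z = tl z := by
        intro z; funext i; simp [ev, Gt, tl]
      have h3 : U i = fun z => u i (ev Gt z) := by
        funext z
        rw [hGt]
      have h4 : ContDiffAt ℝ 2 (u i) (ev Gt (ct t x)) := by
        rw [hGt, tl_ct]
        exact ((hu i).smooth.contDiffAt (isOpen_compl_singleton.mem_nhds hx)).of_le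
          (WithTop.coe_le_coe.mpr (le_top : (2 : ℕ∞) ≤ ⊤))
      rw [h3, hess_pull hW4 Gt (u i) (ct t x) h4]
      have h5 : (hessR (u i) (ev Gt (ct t x))).PosSemidef := by
        rw [hGt, tl_ct]; exact (hu i).psh x hx
      exact h5.mul_mul_conjTranspose_same _
  · exact (hQc U (fun _ => 1) hUL).2
  · refine ⟨fun t => ∑ j : Fin (q + 1), pair (fun x => U j (ct t x) - β (ct t x))
      (res (pull G S) t) (fun i x => L j i (ct t x)), ?_, ?_, ?_⟩
    · refine continuousOn_finsetSum _ fun j _ => ?_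
      exact hTC2 (n + 1) p q V (pull G S) (fun z => U j z - β z) (L j) 0 (fun _ => 1) hV hS'
        (hd0 j) (hLL j)
    · intro t ht
      have hPF : ProjForm (res (pull G S) t) :=
        (hTA (n + 1) p V t hV ht).1 _ hS'
      have hβt := (hTA (n + 1) p V t hV ht).2 1 β hβL
      have hPot : ∀ j i, Pot (fun x => L j i (ct t x)) := by
        intro j i
        by_cases hij : (i : ℕ) < (j : ℕ)
        · have h1 : (fun x => L j i (ct t x)) = fun x => β (ct t x) := by
            funext x; simp only [L, Lf, if_pos hij]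
          rw [h1]
          refine ⟨hβt.1.smooth, ?_, ?_⟩
          · intro l z hl hz
            rw [hβt.1.hom l z hl hz, one_mul]
          · intro z hz
            rw [hβt.2 z hz]
            exact (hβp _ (hct t ht z hz)).submatrix _
        · have h1 : (fun x => L j i (ct t x)) = u i.succ := by
            funext x; simp only [L, Lf, if_neg hij, hU, tl_ct]
          rw [h1]
          exact hu i.succ
      refine (Finset.abs_sum_le_sum_abs _ _).trans ?_
      have h2 : ∀ j ∈ (Finset.univ : Finset (Fin (q + 1))),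
          |pair (fun x => U j (ct t x) - β (ct t x)) (res (pull G S) t)
            (fun i x => L j i (ct t x))| ≤ K t * mass q (res (pull G S) t) := by
        intro j _
        refine (hP3 (n + 1) p q (res (pull G S) t) (fun i x => L j i (ct t x)) hN hPF
          (hPot j)).2.2.2 _ (K t) ?_
        intro x hx
        have := hK t ht x hx j
        simpa [hU, hβ, tl_ct] using this
      refine (Finset.sum_le_sum h2).trans (le_of_eq ?_)
      rw [Finset.sum_const, Finset.card_univ, Fintype.card_fin, nsmul_eq_mul]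
      push_cast; ring
    · refine weak_congr htel (weak_sum hV _ _ ?_ ?_ ?_)
      · intro j
        exact hTC2 (n + 1) p q V (pull G S) (fun z => U j z - β z) (L j) 0 (fun _ => 1) hV hS'
          (hd0 j) (hLL j)
      · intro j
        refine (hQc _ (Fin.cons (α := fun _ => ℝ) 0 (fun _ => 1)) ?_).2
        intro i
        refine Fin.cases ?_ (fun i => ?_) i
        · rw [Fin.cons_zero, Fin.cons_zero]; exact hd0 j
        · rw [Fin.cons_succ, Fin.cons_succ]; exact hLL j i
      · intro j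
        exact hTD (n + 1) p q V (pull G S) (fun z => U j z - β z) (L j) (fun _ => 1) hN hV hS'
          (hd0 j) (hLL j)

end Pool.Agent.H39.EQ.TF
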